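import Mathlib

/-!
i-graphs: definitions and a finite criterion for a graph to be isomorphic to its own i-graph.
-/

namespace Pool.Agent.helper20.IG

open Finset

/-- S is an independent dominating set of G. -/
def IsIndepDom {V : Type*} (G : SimpleGraph V) (S : Finset V) : Prop :=
  (∀ u ∈ S, ∀ v ∈ S, ¬ G.Adj u v) ∧ ∀ v, v ∉ S → ∃ u ∈ S, G.Adj u v

/-- S is an i-set of G : an independent dominating set of the smallest size. -/
def IsISet {V : Type*} (G : SimpleGraph V) (S : Finset V) : Prop :=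
  IsIndepDom G S ∧ ∀ T, IsIndepDom G T → S.card ≤ T.card

/-- The i-graph of G : vertices are the i-sets, X and Y are adjacent if they are distinct and
Y = (X without u) with v added, for some u in X and v in Y with u v an edge of G. -/
def iGraph {V : Type*} [DecidableEq V] (G : SimpleGraph V) :
    SimpleGraph {S : Finset V // IsISet G S} where
  Adj X Y := X ≠ Y ∧ ∃ u ∈ X.1, ∃ v ∈ Y.1, G.Adj u v ∧ Y.1 = insert v (X.1.erase u)
  symm := ⟨by
    rintro X Y ⟨hne, u, hu, v, hv, huv, hY⟩
    refine ⟨hne.symm, v, hv, u, hu, huv.symm, ?_⟩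
    have hvX : v ∉ X.1 := fun h => X.2.1.1 u hu v h huv
    have hvu : v ≠ u := fun h => by subst h; exact G.loopless.irrefl _ huv
    rw [hY, Finset.erase_insert, Finset.insert_erase hu]
    simp [hvX]⟩
  loopless := ⟨fun X h => h.1 rfl⟩

/-- The graph on the vertices 0, ..., n - 1 with the listed edges. -/
def ofEdges (n : ℕ) (E : List (ℕ × ℕ)) : SimpleGraph (Fin n) where
  Adj i j := i ≠ j ∧ ((i.1, j.1) ∈ E ∨ (j.1, i.1) ∈ E)
  symm := ⟨fun i j h => ⟨h.1.symm, h.2.symm⟩⟩
  loopless := ⟨fun i h => h.1 rfl⟩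

instance (n : ℕ) (E : List (ℕ × ℕ)) : DecidableRel (ofEdges n E).Adj := fun i j => by
  unfold ofEdges; infer_instance

/-! ### Bit masks -/

/-- The mask of a set. -/
def mask {n : ℕ} (S : Finset (Fin n)) : ℕ := Nat.ofBits (fun i => decide (i ∈ S))

theorem mask_lt {n : ℕ} (S : Finset (Fin n)) : mask S < 2 ^ n := Nat.ofBits_lt_two_pow _

theorem mask_testBit {n : ℕ} (S : Finset (Fin n)) (i : Fin n) :
    (mask S).testBit i = decide (i ∈ S) := by
  rw [mask, Nat.testBit_ofBits_lt _ _ i.2]

/-- The set of a mask. -/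
def setOf' (n m : ℕ) : Finset (Fin n) := Finset.univ.filter fun i => m.testBit i = true

theorem setOf_mask {n : ℕ} (S : Finset (Fin n)) : setOf' n (mask S) = S := by
  ext i
  simp [setOf', mask_testBit]

theorem mem_setOf {n m : ℕ} (i : Fin n) : i ∈ setOf' n m ↔ m.testBit i = true := by
  simp [setOf']

/-- Number of bits. -/
def pc (n m : ℕ) : ℕ := ((List.finRange n).map fun i => (m.testBit i.1).toNat).sum

theorem card_setOf (n m : ℕ) : (setOf' n m).card = pc n m := by
  rw [setOf', Finset.card_filter, pc, Fin.sum_univ_def]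
  congr 1
  apply List.map_congr_left
  intro i _
  cases m.testBit i.1 <;> simp

/-- Independence and domination, for masks; l is the list of neighbourhood masks. -/
def idom (n : ℕ) (l : List ℕ) (m : ℕ) : Bool :=
  (List.finRange n).all fun i =>
    if m.testBit i.1 then (m &&& l.getD i.1 0) == 0 else (m &&& l.getD i.1 0) != 0

theorem and_ne_zero {n m x : ℕ} (hm : m < 2 ^ n) :
    (m &&& x) ≠ 0 ↔ ∃ j : Fin n, m.testBit j.1 = true ∧ x.testBit j.1 = true := by
  constructor
  · intro h
    obtain ⟨j, hj⟩ := Nat.exists_testBit_of_ne_zero h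
    rw [Nat.testBit_and, Bool.and_eq_true] at hj
    have hjn : j < n := by
      by_contra hc
      have : m.testBit j = false := Nat.testBit_lt_two_pow (lt_of_lt_of_le hm
        (Nat.pow_le_pow_right (by norm_num) (not_lt.mp hc)))
      rw [this] at hj
      simp at hj
    exact ⟨⟨j, hjn⟩, hj⟩
  · rintro ⟨j, h1, h2⟩ h
    have : (m &&& x).testBit j.1 = true := by
      rw [Nat.testBit_and, h1, h2]; rfl
    rw [h] at this
    simp at this

theorem idom_iff {n : ℕ} {G : SimpleGraph (Fin n)} {l : List ℕ}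
    (hl : ∀ i j : Fin n, G.Adj i j ↔ (l.getD i.1 0).testBit j.1 = true) {m : ℕ} (hm : m < 2 ^ n) :
    IsIndepDom G (setOf' n m) ↔ idom n l m = true := by
  unfold idom IsIndepDom
  rw [List.all_eq_true]
  constructor
  · rintro ⟨h1, h2⟩ i _
    by_cases hi : m.testBit i.1 = true
    · rw [if_pos hi, beq_iff_eq]
      by_contra hc
      obtain ⟨j, hj1, hj2⟩ := (and_ne_zero hm).mp hc
      exact h1 i (by rw [mem_setOf]; exact hi) j (by rw [mem_setOf]; exact hj1) ((hl i j).mpr hj2)
    · rw [if_neg hi, bne_iff_ne]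
      obtain ⟨u, hu, huv⟩ := h2 i (by rw [mem_setOf]; exact hi)
      refine (and_ne_zero hm).mpr ⟨u, (mem_setOf u).mp hu, (hl i u).mp huv.symm⟩
  · intro h
    constructor
    · intro u hu v hv huv
      have h1 := h u (List.mem_finRange u)
      rw [mem_setOf] at hu hv
      rw [if_pos hu, beq_iff_eq] at h1
      exact (and_ne_zero hm).mpr ⟨v, hv, (hl u v).mp huv⟩ h1
    · intro v hv
      have h1 := h v (List.mem_finRange v)
      rw [mem_setOf] at hv
      rw [if_neg hv, bne_iff_ne] at h1
      obtain ⟨u, hu1, hu2⟩ := (and_ne_zero hm).mp h1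
      exact ⟨u, (mem_setOf u).mpr hu1, ((hl v u).mpr hu2).symm⟩

/-- The test. -/
def test (n k : ℕ) (l L : List ℕ) : Bool :=
  (List.range (2 ^ n)).all fun m => !(idom n l m) || (Nat.blt k (pc n m)) ||
    ((k == pc n m) && L.contains m)

/-- Criterion. -/
theorem iso_of_test {n : ℕ} {G : SimpleGraph (Fin n)} {l L : List ℕ} (k : ℕ)
    (hl : ∀ i j : Fin n, G.Adj i j ↔ (l.getD i.1 0).testBit j.1 = true)
    (hL : L.length = n)
    (hL2 : ∀ i : Fin n, (L.getD i.1 0) < 2 ^ n ∧ idom n l (L.getD i.1 0) = true ∧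
      pc n (L.getD i.1 0) = k)
    (hinj : ∀ i j : Fin n, L.getD i.1 0 = L.getD j.1 0 → i = j)
    (ht : test n k l L = true)
    (hadj : ∀ i j : Fin n, (∃ u ∈ setOf' n (L.getD i.1 0), ∃ v ∈ setOf' n (L.getD j.1 0),
      (l.getD u.1 0).testBit v.1 = true ∧
        setOf' n (L.getD j.1 0) = insert v ((setOf' n (L.getD i.1 0)).erase u)) ↔
      (l.getD i.1 0).testBit j.1 = true) :
    Nonempty (iGraph G ≃g G) := by
  have hmin : ∀ T : Finset (Fin n), IsIndepDom G T →
      k ≤ T.card ∧ (T.card = k → mask T ∈ L) := by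
    intro T hT
    rw [test, List.all_eq_true] at ht
    have h1 := ht (mask T) (List.mem_range.mpr (mask_lt T))
    have h2 : idom n l (mask T) = true := by
      rw [← idom_iff hl (mask_lt T), setOf_mask]; exact hT
    have h3 : T.card = pc n (mask T) := by rw [← card_setOf, setOf_mask]
    rw [h2] at h1
    simp only [Bool.not_true, Bool.false_or, Bool.or_eq_true, Bool.and_eq_true, beq_iff_eq,
      List.contains_iff_mem, Nat.blt_eq] at h1
    rw [h3]
    rcases h1 with h1 | h1
    · exact ⟨h1.le, fun h => absurd h (by omega)⟩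
    · exact ⟨h1.1.le, fun _ => h1.2⟩
  have hS : ∀ i : Fin n, IsISet G (setOf' n (L.getD i.1 0)) := by
    intro i
    obtain ⟨a, b, c⟩ := hL2 i
    refine ⟨(idom_iff hl a).mpr b, fun T hT => ?_⟩
    rw [card_setOf, c]
    exact (hmin T hT).1
  have hmask : ∀ m, m < 2 ^ n → mask (setOf' n m) = m := by
    intro m hm
    apply Nat.eq_of_testBit_eq
    intro i
    by_cases hi : i < n
    · have := mask_testBit (setOf' n m) ⟨i, hi⟩
      simp only at this
      rw [this]
      simp [setOf']
    · rw [Nat.testBit_lt_two_pow (lt_of_lt_of_le (mask_lt _)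
        (Nat.pow_le_pow_right (by norm_num) (not_lt.mp hi))),
        Nat.testBit_lt_two_pow (lt_of_lt_of_le hm
        (Nat.pow_le_pow_right (by norm_num) (not_lt.mp hi)))]
  let φ : Fin n → {S : Finset (Fin n) // IsISet G S} := fun i => ⟨setOf' n (L.getD i.1 0), hS i⟩
  have hφ : Function.Bijective φ := by
    constructor
    · intro i j hij
      have h1 : setOf' n (L.getD i.1 0) = setOf' n (L.getD j.1 0) := congrArg Subtype.val hij
      apply hinj
      rw [← hmask _ (hL2 i).1, ← hmask _ (hL2 j).1, h1]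
    · rintro ⟨S, hS'⟩
      have hi0 : n ≠ 0 ∨ n = 0 := by omega
      have hcard : S.card = k := by
        apply le_antisymm
        · by_cases hn : 0 < n
          · have := hS'.2 _ (hS ⟨0, hn⟩).1
            rw [card_setOf, (hL2 ⟨0, hn⟩).2.2] at this
            exact this
          · have h0 : n = 0 := by omega
            subst h0
            have hS0 : S = ∅ := by
              ext x; exact x.elim0
            rw [hS0, Finset.card_empty]
            exact Nat.zero_le _
        · exact (hmin S hS'.1).1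
      have hm := (hmin S hS'.1).2 hcard
      obtain ⟨i, hi, hi2⟩ := List.getElem_of_mem hm
      have hin : i < n := by rw [← hL]; exact hi
      refine ⟨⟨i, hin⟩, ?_⟩
      apply Subtype.ext
      change setOf' n (L.getD i 0) = S
      rw [List.getD_eq_getElem _ _ hi, hi2, setOf_mask]
  refine ⟨RelIso.symm ⟨Equiv.ofBijective φ hφ, ?_⟩⟩
  intro i j
  change (φ i ≠ φ j ∧ ∃ u ∈ (φ i).1, ∃ v ∈ (φ j).1, G.Adj u v ∧
    (φ j).1 = insert v ((φ i).1.erase u)) ↔ G.Adj i j
  rw [hl i j, ← hadj i j]
  constructor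
  · rintro ⟨_, u, hu, v, hv, huv, he⟩
    exact ⟨u, hu, v, hv, (hl u v).mp huv, he⟩
  · rintro ⟨u, hu, v, hv, huv, he⟩
    refine ⟨?_, u, hu, v, hv, (hl u v).mpr huv, he⟩
    intro hij
    have h1 : v ∈ (φ i).1 := by rw [hij]; exact hv
    exact (hS i).1.1 u hu v h1 ((hl u v).mpr huv)

theorem connected_of_parent {n : ℕ} (hn : 0 < n) (G : SimpleGraph (Fin n))
    (h : ∀ v : Fin n, v.1 ≠ 0 → ∃ u : Fin n, u.1 < v.1 ∧ G.Adj u v) : G.Connected := by
  have key : ∀ m : ℕ, ∀ v : Fin n, v.1 = m → G.Reachable ⟨0, hn⟩ v := by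
    intro m
    induction m using Nat.strong_induction_on with
    | _ m ih =>
      intro v hv
      by_cases h0 : v.1 = 0
      · have : v = ⟨0, hn⟩ := Fin.ext h0
        rw [this]
      · obtain ⟨u, hu, huv⟩ := h v h0
        exact (ih u.1 (by omega) u rfl).trans huv.reachable
  haveI : Nonempty (Fin n) := ⟨⟨0, hn⟩⟩
  exact SimpleGraph.Connected.mk fun u v => (key _ u rfl).symm.trans (key _ v rfl)

end Pool.Agent.helper20.IG
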